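import Mathlib
import Pool.Agent.Results.MP_821da1_nt.OnePointAllSizes
import Pool.Agent.Results.MP_2d259b_nt.FewExceptionalCurves

/-!
# Counts of the plane curves with many or large integer points, as exponents
-/

set_option autoImplicit false

namespace Q273.SG

open MvPolynomial
open Pool.Agent.Results.MP_821da1_nt.OnePointAllSizes (Polys Points)

/-- the polynomials in two variables -/
abbrev P2 : Type := MvPolynomial (Fin 2) ℤ

/-- the largest absolute value of the coefficients -/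
def siz (F : P2) : ℕ := F.support.sup fun m => (F.coeff m).natAbs

/-- the sum of the absolute values of the coefficients -/
def len (F : P2) : ℕ := ∑ m ∈ F.support, (F.coeff m).natAbs

lemma abs_le_cast {a : ℤ} {H : ℕ} : |a| ≤ (H : ℤ) ↔ a.natAbs ≤ H := by
  rw [Int.abs_eq_natAbs]
  exact Nat.cast_le

lemma coeff_le_siz (F : P2) (m : Fin 2 →₀ ℕ) : (F.coeff m).natAbs ≤ siz F := by
  by_cases h : m ∈ F.support
  · exact Finset.le_sup (f := fun m => (F.coeff m).natAbs) h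
  · rw [notMem_support_iff.1 h]
    simp

lemma mem_Polys {d H : ℕ} {F : P2} : F ∈ Polys d H ↔ F.totalDegree ≤ d ∧ siz F ≤ H := by
  unfold Polys
  rw [Set.mem_ofPred_eq]
  refine and_congr_right fun _ => ?_
  constructor
  · intro h
    exact Finset.sup_le fun m _ => abs_le_cast.1 (h m)
  · intro h m
    exact abs_le_cast.2 ((coeff_le_siz F m).trans h)

lemma one_le_siz {F : P2} (hF : F ≠ 0) : 1 ≤ siz F := by
  obtain ⟨m, hm⟩ := (MvPolynomial.ne_zero_iff).1 hF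
  have h1 := coeff_le_siz F m
  have h2 : 1 ≤ (F.coeff m).natAbs := Int.natAbs_pos.2 hm
  exact h2.trans h1

/-- the counting function of `S` has exponent at most `s` -/
def CE (S : Set P2) (s : ℝ) : Prop :=
  ∀ δ : ℝ, 0 < δ → ∃ C : ℝ, ∀ X : ℝ, 1 ≤ X → {x | x ∈ S ∧ (siz x : ℝ) ≤ X}.Finite ∧
    ({x | x ∈ S ∧ (siz x : ℝ) ≤ X}.ncard : ℝ) ≤ C * X ^ (s + δ)

/-- the exponent of the bound -/
def Ex (d : ℕ) : ℕ := 10 ^ 11 * 36 ^ d * (d + 1) ^ 13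

/-- irreducible over `ℚ`, of degree `d`, with squarefree leading form -/
def Curve (d : ℕ) (F : P2) : Prop :=
  F.totalDegree = d ∧ Irreducible (MvPolynomial.map (Int.castRingHom ℚ) F) ∧
    Squarefree (MvPolynomial.map (Int.castRingHom ℚ) (MvPolynomial.homogeneousComponent d F))

lemma Curve.ne_zero {d : ℕ} {F : P2} (h : Curve d F) : F ≠ 0 := by
  rintro rfl
  apply h.2.1.ne_zero
  rw [map_zero]

/-- all integer points are bounded by the power of the length -/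
def Bdd (d : ℕ) (F : P2) : Prop :=
  ∀ p ∈ Points F, max |p.1| |p.2| ≤ (((d + 1) * len F) ^ Ex d : ℕ)

def S1 (d : ℕ) : Set P2 := {F | Curve d F ∧ ¬ Bdd d F}

def S2 (d : ℕ) (ρ : ℝ) : Set P2 :=
  {F | F.totalDegree ≤ d ∧ F ≠ 0 ∧ ∃ p ∈ Points F, (siz F : ℝ) ^ ρ < ((max |p.1| |p.2| : ℤ) : ℝ)}

def S3 (d : ℕ) : Set P2 := {F | F.totalDegree ≤ d ∧ F ≠ 0 ∧ (Points F).Nontrivial}

def S4 (d : ℕ) : Set P2 := {F | F.totalDegree ≤ d ∧ F ≠ 0 ∧ (Points F).Nonempty}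

lemma finite_Polys (d H : ℕ) : (Polys d H).Finite := Pool.Agent.Q256.UP.finite_pbox d H

lemma floor_mem {F : P2} {d : ℕ} {X : ℝ} (h1 : F.totalDegree ≤ d) (h2 : (siz F : ℝ) ≤ X) :
    F ∈ Polys d ⌊X⌋₊ := mem_Polys.2 ⟨h1, Nat.le_floor h2⟩

/-- the count of the curves with a point beyond the bound, for natural `H` -/
theorem cnt1N {d : ℕ} (hd : 4 ≤ d) (H : ℕ) : {F | F ∈ S1 d ∧ siz F ≤ H}.Finite ∧
    {F | F ∈ S1 d ∧ siz F ≤ H}.ncard ≤
      10 ^ 9 * 36 ^ d * (d + 1) ^ 8 * (2 * H + 1) ^ (4 * d - 2) := by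
  have h := (Pool.Agent.Results.MP_2d259b_nt.FewExceptionalCurves.result d hd H).2
  have hfin : {F | F ∈ S1 d ∧ siz F ≤ H}.Finite :=
    (finite_Polys d H).subset fun F hF => mem_Polys.2 ⟨hF.1.1.1.le, hF.2⟩
  refine ⟨hfin, le_trans ?_ h⟩
  apply Set.ncard_le_ncard
  · rintro F ⟨⟨⟨h1, h2, h3⟩, h4⟩, h5⟩
    refine ⟨⟨h1, fun m => ?_⟩, h2, h3, ?_⟩
    · exact abs_le_cast.2 ((coeff_le_siz F m).trans h5)
    · unfold Bdd at h4
      push Not at h4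
      obtain ⟨p, hp, hp2⟩ := h4
      refine ⟨p.1, p.2, hp, ?_⟩
      have h6 : ((((d + 1) * len F) ^ Ex d : ℕ) : ℤ) < ((max p.1.natAbs p.2.natAbs : ℕ) : ℤ) := by
        rw [Nat.cast_max, Int.natCast_natAbs, Int.natCast_natAbs]
        exact hp2
      exact_mod_cast h6
  · apply (finite_Polys d H).subset
    rintro F ⟨⟨h1, h2⟩, -⟩
    exact mem_Polys.2 ⟨h1.le, Finset.sup_le fun m _ => abs_le_cast.1 (h2 m)⟩

lemma pow_floor_le {X : ℝ} (hX : 1 ≤ X) (k : ℕ) :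
    (2 * (⌊X⌋₊ : ℝ) + 1) ^ k ≤ 3 ^ k * X ^ k := by
  rw [← mul_pow]
  have h1 := Nat.floor_le (show 0 ≤ X by linarith)
  exact pow_le_pow_left₀ (by positivity) (by linarith) k

theorem cnt1 {d : ℕ} (hd : 4 ≤ d) : CE (S1 d) (4 * d - 2 : ℝ) := by
  intro δ hδ
  refine ⟨10 ^ 9 * 36 ^ d * (d + 1) ^ 8 * 3 ^ (4 * d - 2), fun X hX => ?_⟩
  obtain ⟨h1, h2⟩ := cnt1N hd ⌊X⌋₊
  have e : {x | x ∈ S1 d ∧ (siz x : ℝ) ≤ X} = {F | F ∈ S1 d ∧ siz F ≤ ⌊X⌋₊} := by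
    ext F
    exact and_congr_right fun _ => (Nat.le_floor_iff (by linarith)).symm
  rw [e]
  refine ⟨h1, ?_⟩
  have h3 : ({F | F ∈ S1 d ∧ siz F ≤ ⌊X⌋₊}.ncard : ℝ) ≤
      10 ^ 9 * 36 ^ d * (d + 1) ^ 8 * (2 * (⌊X⌋₊ : ℝ) + 1) ^ (4 * d - 2) := by exact_mod_cast h2
  have h4 := pow_floor_le hX (4 * d - 2)
  have h5 : X ^ (4 * d - 2) ≤ X ^ (4 * (d : ℝ) - 2 + δ) := by
    rw [← Real.rpow_natCast]
    apply Real.rpow_le_rpow_of_exponent_le hX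
    rw [Nat.cast_sub (by omega)]
    push_cast
    linarith
  calc _ ≤ _ := h3
    _ ≤ 10 ^ 9 * 36 ^ d * (d + 1) ^ 8 * (3 ^ (4 * d - 2) * X ^ (4 * (d : ℝ) - 2 + δ)) :=
        mul_le_mul_of_nonneg_left (h4.trans (mul_le_mul_of_nonneg_left h5 (by positivity)))
          (by positivity)
    _ = _ := by ring

/-- the number of the coefficients, minus one -/
def nn (d : ℕ) : ℕ := (d + 1) * (d + 2) / 2 - 1

theorem cnt4 {d : ℕ} (hd : 7 ≤ d) : CE (S4 d) (nn d) := by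
  intro δ hδ
  obtain ⟨C, hC, h⟩ := Pool.Agent.Results.MP_821da1_nt.OnePointAllSizes.result.1 d hd
  refine ⟨C * 3 ^ nn d, fun X hX => ?_⟩
  have hfl : 1 ≤ ⌊X⌋₊ := Nat.le_floor (by simpa using hX)
  have h1 := (h ⌊X⌋₊ hfl).2.2.1
  have hsub : {x | x ∈ S4 d ∧ (siz x : ℝ) ≤ X} ⊆
      {F | F ∈ Polys d ⌊X⌋₊ ∧ (Points F).Nonempty} := by
    rintro F ⟨⟨h2, -, h3⟩, h4⟩
    exact ⟨floor_mem h2 h4, h3⟩
  have hfin : {F | F ∈ Polys d ⌊X⌋₊ ∧ (Points F).Nonempty}.Finite :=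
    (finite_Polys d _).subset fun F hF => hF.1
  refine ⟨hfin.subset hsub, ?_⟩
  rw [Nat.card_coe_set_eq] at h1
  have h2 : ({x | x ∈ S4 d ∧ (siz x : ℝ) ≤ X}.ncard : ℝ) ≤
      ({F | F ∈ Polys d ⌊X⌋₊ ∧ (Points F).Nonempty}.ncard : ℝ) := by
    exact_mod_cast Set.ncard_le_ncard hsub hfin
  have h4 := pow_floor_le hX (nn d)
  have h5 : X ^ (nn d) ≤ X ^ ((nn d : ℝ) + δ) := by
    rw [← Real.rpow_natCast]
    apply Real.rpow_le_rpow_of_exponent_le hX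
    linarith
  calc _ ≤ _ := h2
    _ ≤ _ := h1
    _ ≤ C * (3 ^ nn d * X ^ ((nn d : ℝ) + δ)) :=
        mul_le_mul_of_nonneg_left (h4.trans (mul_le_mul_of_nonneg_left h5 (by positivity))) hC.le
    _ = _ := by ring

lemma floor_quarter {X : ℝ} (hX : 1 ≤ X) : (⌊X⌋₊ : ℝ) ^ (-(1 / 4 : ℝ)) ≤ 2 * X ^ (-(1 / 4 : ℝ)) := by
  have hfl : (1 : ℝ) ≤ ⌊X⌋₊ := by exact_mod_cast (Nat.le_floor (by simpa using hX) : 1 ≤ ⌊X⌋₊)
  have h1 : X ≤ 2 * (⌊X⌋₊ : ℝ) := by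
    have := Nat.lt_floor_add_one X
    linarith
  have h2 : (⌊X⌋₊ : ℝ) ^ (-(1 / 4 : ℝ)) ≤ (X / 2) ^ (-(1 / 4 : ℝ)) :=
    Real.rpow_le_rpow_of_nonpos (by linarith) (by linarith) (by norm_num)
  refine h2.trans ?_
  rw [div_eq_mul_inv, Real.mul_rpow (by linarith) (by norm_num), mul_comm]
  refine mul_le_mul_of_nonneg_right ?_ (Real.rpow_nonneg (by linarith) _)
  rw [Real.inv_rpow (by norm_num), Real.rpow_neg (by norm_num), inv_inv]
  calc (2 : ℝ) ^ (1 / 4 : ℝ) ≤ 2 ^ (1 : ℝ) :=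
        Real.rpow_le_rpow_of_exponent_le (by norm_num) (by norm_num)
    _ = 2 := Real.rpow_one 2

theorem cnt3 {d : ℕ} (hd : 7 ≤ d) : CE (S3 d) (nn d - 1 / 4 : ℝ) := by
  intro δ hδ
  obtain ⟨C, hC, h⟩ := Pool.Agent.Results.MP_821da1_nt.OnePointAllSizes.result.1 d hd
  refine ⟨C * 2 * C * 3 ^ nn d, fun X hX => ?_⟩
  have hX0 : 0 < X := by linarith
  have hfl : 1 ≤ ⌊X⌋₊ := Nat.le_floor (by simpa using hX)
  have h1 := (h ⌊X⌋₊ hfl).2.2.1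
  have h1' := (h ⌊X⌋₊ hfl).2.2.2.1
  have hsub : {x | x ∈ S3 d ∧ (siz x : ℝ) ≤ X} ⊆
      {F | F ∈ Polys d ⌊X⌋₊ ∧ (Points F).Nontrivial} := by
    rintro F ⟨⟨h2, -, h3⟩, h4⟩
    exact ⟨floor_mem h2 h4, h3⟩
  have hfin : {F | F ∈ Polys d ⌊X⌋₊ ∧ (Points F).Nontrivial}.Finite :=
    (finite_Polys d _).subset fun F hF => hF.1
  refine ⟨hfin.subset hsub, ?_⟩
  rw [Nat.card_coe_set_eq] at h1 h1'
  rw [Nat.card_coe_set_eq] at h1'
  have h2 : ({x | x ∈ S3 d ∧ (siz x : ℝ) ≤ X}.ncard : ℝ) ≤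
      ({F | F ∈ Polys d ⌊X⌋₊ ∧ (Points F).Nontrivial}.ncard : ℝ) := by
    exact_mod_cast Set.ncard_le_ncard hsub hfin
  have h4 := pow_floor_le hX (nn d)
  have h6 := floor_quarter hX
  have h5 : X ^ (-(1 / 4 : ℝ)) * X ^ (nn d) ≤ X ^ ((nn d : ℝ) - 1 / 4 + δ) := by
    rw [← Real.rpow_natCast X (nn d), ← Real.rpow_add hX0]
    apply Real.rpow_le_rpow_of_exponent_le hX
    linarith
  have hq : 0 ≤ (⌊X⌋₊ : ℝ) ^ (-(1 / 4 : ℝ)) := Real.rpow_nonneg (Nat.cast_nonneg _) _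
  have hq2 : 0 ≤ X ^ (-(1 / 4 : ℝ)) := Real.rpow_nonneg hX0.le _
  calc _ ≤ _ := h2
    _ ≤ _ := h1'
    _ ≤ C * (2 * X ^ (-(1 / 4 : ℝ))) * (C * (3 ^ nn d * X ^ nn d)) := by
        refine mul_le_mul (mul_le_mul_of_nonneg_left h6 hC.le) (h1.trans
          (mul_le_mul_of_nonneg_left h4 hC.le)) (Nat.cast_nonneg _) (by positivity)
    _ = C * 2 * C * 3 ^ nn d * (X ^ (-(1 / 4 : ℝ)) * X ^ nn d) := by ring
    _ ≤ _ := mul_le_mul_of_nonneg_left h5 (by positivity)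

lemma ncard_range (A : ℕ → Set P2) (K : ℕ) :
    (⋃ k ∈ Finset.range K, A k).ncard ≤ ∑ k ∈ Finset.range K, (A k).ncard := by
  induction K with
  | zero => simp
  | succ K ih =>
    rw [Finset.sum_range_succ, Finset.range_add_one, Finset.set_biUnion_insert]
    refine (Set.ncard_union_le _ _).trans ?_
    omega

theorem cnt2 {d : ℕ} (hd : 7 ≤ d) {ρ : ℝ} (hρ : 0 < ρ) :
    CE (S2 d ρ) (nn d - min (ρ * ((d : ℝ) - 2)) (1 / 4)) := by
  intro δ hδ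
  obtain ⟨C, hC, h⟩ := Pool.Agent.Results.MP_821da1_nt.OnePointAllSizes.result.1 d hd
  have hd' : (7 : ℝ) ≤ d := by exact_mod_cast hd
  set μ : ℝ := min (ρ * ((d : ℝ) - 2)) (1 / 4) with hμ
  have hμ0 : 0 ≤ μ := le_min (mul_nonneg hρ.le (by linarith)) (by norm_num)
  have hμ1 : μ ≤ ρ * ((d : ℝ) - 2) := min_le_left _ _
  have hμ2 : μ ≤ 1 / 4 := min_le_right _ _
  have hnn : (1 : ℝ) ≤ nn d := by
    have : 1 ≤ nn d := by
      unfold nn
      have : 2 ≤ (d + 1) * (d + 2) / 2 := by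
        rw [Nat.le_div_iff_mul_le (by norm_num)]
        nlinarith
      omega
    exact_mod_cast this
  obtain ⟨K, hK⟩ := exists_nat_ge (nn d / δ + 1)
  have hK1 : (1 : ℝ) ≤ K := by
    have : 0 ≤ (nn d : ℝ) / δ := by positivity
    linarith
  have hK0 : (0 : ℝ) < K := by linarith
  have hKδ : (nn d : ℝ) / K ≤ δ := by
    rw [div_le_iff₀ hK0]
    have : (nn d : ℝ) / δ ≤ K := by linarith
    rw [div_le_iff₀ hδ] at this
    linarith
  refine ⟨K * (C * 3 * C * 3 ^ nn d), fun X hX => ?_⟩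
  have hX0 : 0 < X := by linarith
  let a : ℕ → ℝ := fun k => X ^ ((k : ℝ) / K)
  let b : ℕ → ℝ := fun k => X ^ (((k : ℝ) + 1) / K)
  have ha1 : ∀ k, 1 ≤ a k := fun k => Real.one_le_rpow hX (by positivity)
  have hb1 : ∀ k, 1 ≤ b k := fun k => Real.one_le_rpow hX (by positivity)
  have hab : ∀ k, a k ≤ b k := fun k => Real.rpow_le_rpow_of_exponent_le hX (by
    apply div_le_div_of_nonneg_right _ hK0.le
    linarith)
  let A : ℕ → Set P2 := fun k => {F | F ∈ Polys d ⌊b k⌋₊ ∧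
    ∃ p ∈ Points F, ((⌊(a k) ^ ρ⌋₊ : ℕ) : ℤ) < max |p.1| |p.2|}
  have hAfin : ∀ k, (A k).Finite := fun k => (finite_Polys d _).subset fun F hF => hF.1
  have hsub : {x | x ∈ S2 d ρ ∧ (siz x : ℝ) ≤ X} ⊆ ⋃ k ∈ Finset.range K, A k := by
    rintro F ⟨⟨h1, h2, p, hp, hp2⟩, h3⟩
    have hs1 : (1 : ℝ) ≤ siz F := by exact_mod_cast one_le_siz h2
    have hex : ∃ k : ℕ, (siz F : ℝ) ≤ b k := by
      refine ⟨K, h3.trans ?_⟩
      calc X = X ^ (1 : ℝ) := (Real.rpow_one X).symm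
        _ ≤ _ := Real.rpow_le_rpow_of_exponent_le hX (by
          rw [le_div_iff₀ hK0]; linarith)
    classical
    set k := Nat.find hex with hk
    have hk1 : (siz F : ℝ) ≤ b k := Nat.find_spec hex
    have hkK : k < K := by
      have hKn : 1 ≤ K := by exact_mod_cast hK1
      have h4 : (siz F : ℝ) ≤ b (K - 1) := by
        refine h3.trans (le_of_eq ?_)
        show X = X ^ ((((K - 1 : ℕ) : ℝ) + 1) / K)
        rw [Nat.cast_sub hKn, Nat.cast_one, sub_add_cancel, div_self hK0.ne', Real.rpow_one]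
      have h5 : k ≤ K - 1 := Nat.find_min' hex h4
      omega
    have hk2 : a k ≤ siz F := by
      rcases Nat.eq_zero_or_pos k with h0 | h0
      · have : a k = 1 := by
          show X ^ ((k : ℝ) / K) = 1
          rw [h0, Nat.cast_zero, zero_div, Real.rpow_zero]
        rw [this]
        exact hs1
      · have h5 := Nat.find_min hex (m := k - 1) (by omega)
        have h6 : b (k - 1) = a k := by
          show X ^ ((((k - 1 : ℕ) : ℝ) + 1) / K) = X ^ ((k : ℝ) / K)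
          rw [Nat.cast_sub (by omega : 1 ≤ k), Nat.cast_one, sub_add_cancel]
        rw [h6] at h5
        exact (not_le.1 h5).le
    refine Set.mem_biUnion (Finset.mem_coe.2 (Finset.mem_range.2 hkK)) ?_
    refine ⟨floor_mem h1 hk1, p, hp, ?_⟩
    have h7 : ((⌊(a k) ^ ρ⌋₊ : ℕ) : ℝ) ≤ (a k) ^ ρ :=
      Nat.floor_le (Real.rpow_nonneg (zero_le_one.trans (ha1 k)) _)
    have h8 : (a k) ^ ρ ≤ (siz F : ℝ) ^ ρ :=
      Real.rpow_le_rpow (zero_le_one.trans (ha1 k)) hk2 hρ.le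
    have h9 : ((⌊(a k) ^ ρ⌋₊ : ℕ) : ℝ) < ((max |p.1| |p.2| : ℤ) : ℝ) := by linarith
    exact_mod_cast h9
  have hAc : ∀ k ∈ Finset.range K, ((A k).ncard : ℝ) ≤
      C * 3 * C * 3 ^ nn d * X ^ ((nn d : ℝ) - μ + δ) := by
    intro k hk
    have hk' : (k : ℝ) ≤ K := by exact_mod_cast (Finset.mem_range.1 hk).le
    have hfl : 1 ≤ ⌊b k⌋₊ := Nat.le_floor (by simpa using hb1 k)
    have h1 := (h ⌊b k⌋₊ hfl).2.2.1
    have h2 := (h ⌊b k⌋₊ hfl).2.2.2.2 ⌊(a k) ^ ρ⌋₊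
    rw [Nat.card_coe_set_eq] at h1 h2
    rw [Nat.card_coe_set_eq] at h2
    have ha0 : 0 < a k := lt_of_lt_of_le one_pos (ha1 k)
    have q1 : 1 / ((⌊(a k) ^ ρ⌋₊ : ℝ) + 1) ^ (d - 2) ≤ (a k) ^ (-μ) := by
      have r1 : (a k) ^ ρ ≤ (⌊(a k) ^ ρ⌋₊ : ℝ) + 1 := (Nat.lt_floor_add_one _).le
      have r0 : 0 < (a k) ^ ρ := Real.rpow_pos_of_pos ha0 _
      have r2 : ((a k) ^ ρ) ^ (d - 2) ≤ ((⌊(a k) ^ ρ⌋₊ : ℝ) + 1) ^ (d - 2) :=
        pow_le_pow_left₀ r0.le r1 _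
      have r3 : ((a k) ^ ρ) ^ (d - 2) = (a k) ^ (ρ * ((d : ℝ) - 2)) := by
        rw [← Real.rpow_natCast, ← Real.rpow_mul ha0.le, Nat.cast_sub (by omega)]
        norm_num
      have r4 : (a k) ^ μ ≤ (a k) ^ (ρ * ((d : ℝ) - 2)) :=
        Real.rpow_le_rpow_of_exponent_le (ha1 k) hμ1
      rw [Real.rpow_neg ha0.le, one_div]
      apply inv_anti₀ (Real.rpow_pos_of_pos ha0 _)
      linarith
    have q2 : (⌊b k⌋₊ : ℝ) ^ (-(1 / 4 : ℝ)) ≤ 2 * (a k) ^ (-μ) := by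
      refine (floor_quarter (hb1 k)).trans (mul_le_mul_of_nonneg_left ?_ (by norm_num))
      refine (Real.rpow_le_rpow_of_nonpos ha0 (hab k) (by norm_num)).trans ?_
      exact Real.rpow_le_rpow_of_exponent_le (ha1 k) (by linarith)
    have q3 : 0 ≤ (a k) ^ (-μ) := (Real.rpow_pos_of_pos ha0 _).le
    have h4 := pow_floor_le (hb1 k) (nn d)
    have q4 : (a k) ^ (-μ) * (b k) ^ nn d ≤ X ^ ((nn d : ℝ) - μ + δ) := by
      show (X ^ ((k : ℝ) / K)) ^ (-μ) * (X ^ (((k : ℝ) + 1) / K)) ^ nn d ≤ _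
      rw [← Real.rpow_natCast (X ^ (((k : ℝ) + 1) / K)), ← Real.rpow_mul hX0.le,
        ← Real.rpow_mul hX0.le, ← Real.rpow_add hX0]
      apply Real.rpow_le_rpow_of_exponent_le hX
      have e : (k : ℝ) / K * -μ + ((k : ℝ) + 1) / K * (nn d : ℝ) =
          (k : ℝ) / K * ((nn d : ℝ) - μ) + (nn d : ℝ) / K := by ring
      rw [e]
      have e2 : (k : ℝ) / K ≤ 1 := by rw [div_le_one hK0]; exact hk'
      have e3 : (k : ℝ) / K * ((nn d : ℝ) - μ) ≤ 1 * ((nn d : ℝ) - μ) :=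
        mul_le_mul_of_nonneg_right e2 (by linarith)
      linarith
    calc ((A k).ncard : ℝ) ≤ _ := h2
      _ ≤ C * ((a k) ^ (-μ) + 2 * (a k) ^ (-μ)) * (C * (3 ^ nn d * (b k) ^ nn d)) := by
          refine mul_le_mul (mul_le_mul_of_nonneg_left (add_le_add q1 q2) hC.le) (h1.trans
            (mul_le_mul_of_nonneg_left h4 hC.le)) (Nat.cast_nonneg _) (by positivity)
      _ = C * 3 * C * 3 ^ nn d * ((a k) ^ (-μ) * (b k) ^ nn d) := by ring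
      _ ≤ _ := mul_le_mul_of_nonneg_left q4 (by positivity)
  have hUfin : (⋃ k ∈ Finset.range K, A k).Finite :=
    Set.Finite.biUnion (Finset.finite_toSet _) fun k _ => hAfin k
  refine ⟨hUfin.subset hsub, ?_⟩
  have h1 : ({x | x ∈ S2 d ρ ∧ (siz x : ℝ) ≤ X}.ncard : ℝ) ≤
      ∑ k ∈ Finset.range K, ((A k).ncard : ℝ) := by
    have := (Set.ncard_le_ncard hsub hUfin).trans (ncard_range A K)
    exact_mod_cast this
  refine h1.trans ((Finset.sum_le_sum hAc).trans (le_of_eq ?_))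
  rw [Finset.sum_const, Finset.card_range, nsmul_eq_mul]
  ring

end Q273.SG
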