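import Mathlib
import Pool.Agent.Q273.SG.Cnt
import Pool.Agent.Q273.SN.Gen
import Pool.Agent.Q273.ApxF

/-!
# Effective Siegel near almost every polynomial: the laws
-/

set_option autoImplicit false

namespace Q273.SG

open MeasureTheory MvPolynomial
open Pool.Agent.Results.MP_821da1_nt.OnePointAllSizes (Polys Points)
open Q273.SN (mZ gen)
open Q273.NC (ZHatN)

theorem countable_P2 : Countable P2 := by
  rw [← Cardinal.mk_le_aleph0_iff]
  refine (MvPolynomial.cardinalMk_le_max (R := ℤ) (σ := Fin 2)).trans ?_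
  simp

variable {n : ℕ}

open scoped Classical in
/-- the law for countably many thin sets -/
theorem law (hn : 1 ≤ n) [MeasurableSpace (ZHatN n)] [BorelSpace (ZHatN n)]
    (μ : Measure (ZHatN n)) [IsFiniteMeasure μ] [μ.IsAddLeftInvariant]
    (y : P2 → Fin n → ℚ) {ι : Type} [Countable ι] (S : ι → Set P2) (s : ι → ℝ)
    (hs : ∀ i, 0 ≤ s i) (hS : ∀ i, CE (S i) (s i)) (h0 : ∀ i, ∀ F ∈ S i, F ≠ 0) :
    ∀ᵐ u : (Fin n → ℝ) × ZHatN n ∂(volume.prod μ), ∀ (i : ι) (V : Finset Nat.Primes) (ε : ℝ),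
      0 < ε → {F | F ∈ S i ∧ (s i / n + ε) * Real.log (siz F) ≤ mZ V u (y F)}.Finite := by
  have : Countable P2 := countable_P2
  have hn0 : (0 : ℝ) < n := by exact_mod_cast hn
  have key : ∀ i : ι, ∀ᵐ u : (Fin n → ℝ) × ZHatN n ∂(volume.prod μ),
      ∀ V : Finset Nat.Primes, ∀ ε : ℝ, 0 < ε → ∃ C : ℝ, ∀ x ∈ S i,
      (n : ℝ) * mZ V u (y x) ≤ (s i + ε) * Real.log (siz x) + C := by
    intro i
    exact gen hn μ y (fun F => (siz F : ℝ)) (S i)
      (fun F hF => by exact_mod_cast one_le_siz (h0 i F hF)) (hs i) (hS i)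
  filter_upwards [ae_all_iff.2 key] with u hu
  intro i V ε hε
  obtain ⟨C, hC⟩ := hu i V (n * ε / 2) (by positivity)
  obtain ⟨C1, hC1⟩ := hS i 1 one_pos
  refine (hC1 (max 1 (Real.exp (2 * C / (n * ε)))) (le_max_left _ _)).1.subset ?_
  rintro F ⟨h1, h2⟩
  refine ⟨h1, ?_⟩
  have h3 := hC F h1
  have h4 : (1 : ℝ) ≤ siz F := by exact_mod_cast one_le_siz (h0 i F h1)
  have h5 : (n : ℝ) * ((s i / n + ε) * Real.log (siz F)) ≤
      (s i + n * ε / 2) * Real.log (siz F) + C :=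
    (mul_le_mul_of_nonneg_left h2 hn0.le).trans h3
  have h6 : (n : ℝ) * ((s i / n + ε) * Real.log (siz F)) =
      (s i + n * ε) * Real.log (siz F) := by
    field_simp
  rw [h6] at h5
  have h7 : Real.log (siz F) ≤ 2 * C / (n * ε) := by
    rw [le_div_iff₀ (by positivity)]
    nlinarith
  refine le_trans ?_ (le_max_right _ _)
  rw [← Real.log_le_iff_le_exp (by linarith)]
  exact h7

/-- the Hausdorff dimension for a thin set -/
theorem dim_set.{w} {Y : Type w} [MetricSpace Y] (φ : P2 → Y) {S : Set P2} {s τ : ℝ} (hs : 0 ≤ s)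
    (hτ : 0 < τ) (hS : CE S s) :
    ∃ E : Set Y, dimH E ≤ ENNReal.ofReal (s / τ) ∧ ∀ ξ : Y, ξ ∉ E → ∀ B : ℝ,
      {F | F ∈ S ∧ dist ξ (φ F) ≤ B * (siz F : ℝ) ^ (-τ)}.Finite :=
  Q273.Apx.approx S (fun F : P2 => (siz F : ℝ)) φ hs hτ hS

/-- numberings of the monomials other than one exist -/
theorem exists_num {d : ℕ} (m₀ : Fin 2 →₀ ℕ) (h : m₀.degree ≤ d) :
    Nonempty (Fin (nn d) ≃ {m : Fin 2 →₀ ℕ // m.degree ≤ d ∧ m ≠ m₀}) := by
  classical
  have h1 : ∀ m : Fin 2 →₀ ℕ, m ∈ (Pool.Agent.Q256.UP.PS d).erase m₀ ↔ m.degree ≤ d ∧ m ≠ m₀ := by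
    intro m
    rw [Finset.mem_erase, Pool.Agent.Q256.UP.mem_PS]
    exact and_comm
  have h2 : ((Pool.Agent.Q256.UP.PS d).erase m₀).card = nn d := by
    rw [Finset.card_erase_of_mem ((Pool.Agent.Q256.UP.mem_PS m₀).2 h),
      Pool.Agent.Q256.UP.card_PS, Nat.choose_two_right]
    unfold nn
    congr 2
    have : d + 2 - 1 = d + 1 := by omega
    rw [this, mul_comm]
  have h3 : Fintype.card {m // m ∈ (Pool.Agent.Q256.UP.PS d).erase m₀} = nn d := by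
    rw [Fintype.card_coe, h2]
  exact ⟨((Fintype.equivFinOfCardEq h3).symm).trans (Equiv.subtypeEquivRight h1)⟩

theorem exists_num' (d : ℕ) :
    Nonempty (Fin (nn d + 1) ≃ {m : Fin 2 →₀ ℕ // m.degree ≤ d}) := by
  classical
  have h1 : ∀ m : Fin 2 →₀ ℕ, m ∈ Pool.Agent.Q256.UP.PS d ↔ m.degree ≤ d := fun m =>
    Pool.Agent.Q256.UP.mem_PS m
  have h2 : (Pool.Agent.Q256.UP.PS d).card = nn d + 1 := by
    have h0 : (d + 1) * (d + 2) / 2 = (d + 2).choose 2 := by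
      rw [Nat.choose_two_right]
      have : d + 2 - 1 = d + 1 := by omega
      rw [this, mul_comm]
    have h3 : 1 ≤ (d + 2).choose 2 := Nat.choose_pos (by omega)
    rw [Pool.Agent.Q256.UP.card_PS]
    unfold nn
    rw [h0]
    omega
  have h3 : Fintype.card {m // m ∈ Pool.Agent.Q256.UP.PS d} = nn d + 1 := by
    rw [Fintype.card_coe, h2]
  exact ⟨((Fintype.equivFinOfCardEq h3).symm).trans (Equiv.subtypeEquivRight h1)⟩

lemma nn_pos {d : ℕ} (hd : 1 ≤ d) : 1 ≤ nn d := by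
  unfold nn
  have : 2 ≤ (d + 1) * (d + 2) / 2 := by
    rw [Nat.le_div_iff_mul_le (by norm_num)]
    nlinarith
  omega

/-- the four statements at a point -/
def Good (d : ℕ) (u : (Fin (nn d) → ℝ) × ZHatN (nn d)) (y : P2 → Fin (nn d) → ℚ) : Prop :=
  ∀ (V : Finset Nat.Primes) (ε : ℝ), 0 < ε →
    {F | F ∈ S1 d ∧ ((4 * d - 2 : ℝ) / nn d + ε) * Real.log (siz F) ≤ mZ V u (y F)}.Finite ∧
    (7 ≤ d →
      (∀ ρ : ℝ, 0 < ρ → {F | F ∈ S2 d ρ ∧ (1 - min (ρ * ((d : ℝ) - 2)) (1 / 4) / nn d + ε) *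
        Real.log (siz F) ≤ mZ V u (y F)}.Finite) ∧
      {F | F ∈ S3 d ∧ (1 - 1 / 4 / nn d + ε) * Real.log (siz F) ≤ mZ V u (y F)}.Finite ∧
      {F | F ∈ S4 d ∧ (1 + ε) * Real.log (siz F) ≤ mZ V u (y F)}.Finite)

open scoped Classical in
theorem good_ae {d : ℕ} (hd : 4 ≤ d) [MeasurableSpace (ZHatN (nn d))] [BorelSpace (ZHatN (nn d))]
    (μ : Measure (ZHatN (nn d))) [IsFiniteMeasure μ] [μ.IsAddLeftInvariant]
    (y : P2 → Fin (nn d) → ℚ) :
    ∀ᵐ u : (Fin (nn d) → ℝ) × ZHatN (nn d) ∂(volume.prod μ), Good d u y := by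
  have hn := nn_pos (d := d) (by omega)
  have hn0 : (0 : ℝ) < nn d := by exact_mod_cast hn
  have hd' : (4 : ℝ) ≤ d := by exact_mod_cast hd
  have hn1 : (1 : ℝ) ≤ nn d := by exact_mod_cast hn
  have t1 := law hn μ y (fun _ : Unit => S1 d) (fun _ => (4 * d - 2 : ℝ)) (fun _ => by linarith)
    (fun _ => cnt1 hd) (fun _ F hF => hF.1.ne_zero)
  have t2 := law hn μ y (fun i : {ρ : ℚ // 0 < (ρ : ℝ) ∧ 7 ≤ d} => S2 d (i.1 : ℝ))
    (fun i => nn d - min ((i.1 : ℝ) * ((d : ℝ) - 2)) (1 / 4)) (fun i => by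
      have := min_le_right ((i.1 : ℝ) * ((d : ℝ) - 2)) (1 / 4)
      linarith)
    (fun i => cnt2 i.2.2 i.2.1) (fun i F hF => hF.2.1)
  have t3 := law hn μ y (fun _ : {_x : Unit // 7 ≤ d} => S3 d) (fun _ => (nn d - 1 / 4 : ℝ))
    (fun _ => by linarith) (fun i => cnt3 i.2) (fun _ F hF => hF.2.1)
  have t4 := law hn μ y (fun _ : {_x : Unit // 7 ≤ d} => S4 d) (fun _ => (nn d : ℝ))
    (fun _ => hn0.le) (fun i => cnt4 i.2) (fun _ F hF => hF.2.1)
  filter_upwards [t1, t2, t3, t4] with u h1 h2 h3 h4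
  intro V ε hε
  refine ⟨h1 () V ε hε, fun h7 => ⟨fun ρ hρ => ?_, ?_, ?_⟩⟩
  · have hd7 : (7 : ℝ) ≤ d := by exact_mod_cast h7
    set w : ℝ := min (ρ / 2) (ε * nn d / (2 * ((d : ℝ) - 2))) with hw
    have hw0 : 0 < w := lt_min (by linarith) (by
      apply div_pos (by positivity)
      linarith)
    obtain ⟨q, hq1, hq2⟩ := exists_rat_btwn (show ρ - w < ρ by linarith)
    have hwρ : w ≤ ρ / 2 := min_le_left _ _
    have hq0 : 0 < (q : ℝ) := by linarith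
    refine (h2 ⟨q, hq0, h7⟩ V (ε / 2) (by positivity)).subset ?_
    rintro F ⟨⟨g1, g2, p, g3, g4⟩, g5⟩
    have hs1 : (1 : ℝ) ≤ siz F := by exact_mod_cast one_le_siz g2
    refine ⟨⟨g1, g2, p, g3, lt_of_le_of_lt (Real.rpow_le_rpow_of_exponent_le hs1 hq2.le) g4⟩,
      le_trans ?_ g5⟩
    refine mul_le_mul_of_nonneg_right ?_ (Real.log_nonneg hs1)
    show ((nn d : ℝ) - min ((q : ℝ) * ((d : ℝ) - 2)) (1 / 4)) / nn d + ε / 2 ≤ _
    rw [sub_div, div_self hn0.ne']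
    have e1 : min (ρ * ((d : ℝ) - 2)) (1 / 4) ≤ min ((q : ℝ) * ((d : ℝ) - 2)) (1 / 4) +
        w * ((d : ℝ) - 2) := by
      have e0 : ρ * ((d : ℝ) - 2) ≤ (q : ℝ) * ((d : ℝ) - 2) + w * ((d : ℝ) - 2) := by
        rw [← add_mul]
        exact mul_le_mul_of_nonneg_right (by linarith) (by linarith)
      have e00 : 0 ≤ w * ((d : ℝ) - 2) := mul_nonneg hw0.le (by linarith)
      rcases min_choice ((q : ℝ) * ((d : ℝ) - 2)) (1 / 4 : ℝ) with h | h
      · rw [h]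
        exact (min_le_left _ _).trans e0
      · rw [h]
        exact (min_le_right _ _).trans (by linarith)
    have e2 : w * ((d : ℝ) - 2) ≤ ε * nn d / 2 := by
      have := min_le_right (ρ / 2) (ε * nn d / (2 * ((d : ℝ) - 2)))
      rw [← hw, le_div_iff₀ (by linarith)] at this
      linarith
    have e3 : min (ρ * ((d : ℝ) - 2)) (1 / 4) / nn d ≤
        min ((q : ℝ) * ((d : ℝ) - 2)) (1 / 4) / nn d + ε / 2 := by
      rw [div_add' _ _ _ hn0.ne', div_le_div_iff_of_pos_right hn0]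
      linarith
    linarith
  · refine (h3 ⟨(), h7⟩ V ε hε).subset ?_
    rintro F ⟨g1, g2⟩
    refine ⟨g1, le_of_eq_of_le ?_ g2⟩
    show (((nn d : ℝ) - 1 / 4) / nn d + ε) * _ = _
    rw [sub_div, div_self hn0.ne']
  · refine (h4 ⟨(), h7⟩ V ε hε).subset ?_
    rintro F ⟨g1, g2⟩
    refine ⟨g1, le_of_eq_of_le ?_ g2⟩
    show ((nn d : ℝ) / nn d + ε) * _ = _
    rw [div_self hn0.ne']

end Q273.SG
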