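import Mathlib

/-!
# Balls in `ℤ_p ^ N` and an explicit Borel-Cantelli bound
-/

set_option autoImplicit false

namespace Q273.SG

open MeasureTheory

section ball

variable (p : ℕ) [Fact p.Prime] {ι : Type} [Fintype ι] [MeasurableSpace (ι → ℤ_[p])]
  [BorelSpace (ι → ℤ_[p])] (μ : Measure (ι → ℤ_[p])) [IsProbabilityMeasure μ]
  [μ.IsAddLeftInvariant]

omit [Fintype ι] [IsProbabilityMeasure μ] in
lemma ball_eq (a : ι → ℤ_[p]) (r : ℝ) :
    μ {η | ∀ j, ‖η j - a j‖ ≤ r} = μ {η | ∀ j, ‖η j‖ ≤ r} := by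
  have h : {η : ι → ℤ_[p] | ∀ j, ‖η j - a j‖ ≤ r} =
      (fun η => -a + η) ⁻¹' {η | ∀ j, ‖η j‖ ≤ r} := by
    ext η
    refine forall_congr' fun j => ?_
    show ‖η j - a j‖ ≤ r ↔ ‖-a j + η j‖ ≤ r
    rw [neg_add_eq_sub]
  rw [h, measure_preimage_add]

omit [Fintype ι] in
lemma meas_ball (a : ι → ℤ_[p]) (r : ℝ) : MeasurableSet {η : ι → ℤ_[p] | ∀ j, ‖η j - a j‖ ≤ r} := by
  apply IsClosed.measurableSet
  have : {η : ι → ℤ_[p] | ∀ j, ‖η j - a j‖ ≤ r} = ⋂ j, {η | ‖η j - a j‖ ≤ r} := by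
    ext η
    simp
  rw [this]
  refine isClosed_iInter fun j => ?_
  exact isClosed_le (by fun_prop) continuous_const

lemma ball_pow (k : ℕ) (a : ι → ℤ_[p]) :
    μ {η | ∀ j, ‖η j - a j‖ ≤ (p : ℝ) ^ (-(k : ℤ))} ≤
      ENNReal.ofReal (((p : ℝ) ^ (-(k : ℤ))) ^ Fintype.card ι) := by
  classical
  have hp : 0 < p := (Fact.out : p.Prime).pos
  let c : (ι → Fin (p ^ k)) → ι → ℤ_[p] := fun f j => ((f j : ℕ) : ℤ_[p])
  let B : (ι → Fin (p ^ k)) → Set (ι → ℤ_[p]) := fun f =>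
    {η | ∀ j, ‖η j - c f j‖ ≤ (p : ℝ) ^ (-(k : ℤ))}
  have hdis : Pairwise (Function.onFun Disjoint B) := by
    intro f g hfg
    rw [Function.onFun, Set.disjoint_left]
    intro η h1 h2
    apply hfg
    funext j
    have h3 : ‖c f j - c g j‖ ≤ (p : ℝ) ^ (-(k : ℤ)) := by
      have e : c f j - c g j = (η j - c g j) - (η j - c f j) := by ring
      rw [e, sub_eq_add_neg]
      refine (PadicInt.nonarchimedean _ _).trans (max_le (h2 j) ?_)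
      rw [norm_neg]
      exact h1 j
    have h4 : ‖(((f j : ℕ) : ℤ) - ((g j : ℕ) : ℤ) : ℤ_[p])‖ ≤ (p : ℝ) ^ (-(k : ℤ)) := by
      push_cast
      exact h3
    have h5 : ((p : ℤ) ^ k) ∣ (((f j : ℕ) : ℤ) - ((g j : ℕ) : ℤ)) := by
      rw [← PadicInt.norm_int_le_pow_iff_dvd]
      push_cast at h4 ⊢
      exact h4
    have h6 : ((f j : ℕ) : ℤ) = ((g j : ℕ) : ℤ) := by
      have b1 : ((f j : ℕ) : ℤ) < (p : ℤ) ^ k := by exact_mod_cast (f j).2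
      have b2 : ((g j : ℕ) : ℤ) < (p : ℤ) ^ k := by exact_mod_cast (g j).2
      have b3 : (0 : ℤ) ≤ ((f j : ℕ) : ℤ) := by positivity
      have b4 : (0 : ℤ) ≤ ((g j : ℕ) : ℤ) := by positivity
      have h7 : (((f j : ℕ) : ℤ) - ((g j : ℕ) : ℤ)).natAbs < ((p : ℤ) ^ k).natAbs := by
        rw [Int.natAbs_pow, Int.natAbs_natCast]
        have : ((((f j : ℕ) : ℤ) - ((g j : ℕ) : ℤ)).natAbs : ℤ) < ((p ^ k : ℕ) : ℤ) := by
          rw [Int.natCast_natAbs, Nat.cast_pow, abs_lt]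
          constructor <;> linarith
        exact_mod_cast this
      have h8 := Int.eq_zero_of_dvd_of_natAbs_lt_natAbs h5 h7
      linarith
    exact Fin.ext (by exact_mod_cast h6)
  have h1 : μ (⋃ f, B f) = ∑ f, μ (B f) := by
    rw [measure_iUnion hdis (fun f => meas_ball p (c f) _), tsum_fintype]
  have h2 : ∑ f, μ (B f) = (((p ^ k) ^ Fintype.card ι : ℕ) : ENNReal) *
      μ {η | ∀ j, ‖η j - a j‖ ≤ (p : ℝ) ^ (-(k : ℤ))} := by
    have : ∀ f, μ (B f) = μ {η | ∀ j, ‖η j - a j‖ ≤ (p : ℝ) ^ (-(k : ℤ))} := by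
      intro f
      rw [ball_eq p μ a]
      exact ball_eq p μ (c f) _
    rw [Finset.sum_congr rfl fun f _ => this f, Finset.sum_const, nsmul_eq_mul, Finset.card_univ,
      Fintype.card_fun, Fintype.card_fin]
  have h3 : (((p ^ k) ^ Fintype.card ι : ℕ) : ENNReal) *
      μ {η | ∀ j, ‖η j - a j‖ ≤ (p : ℝ) ^ (-(k : ℤ))} ≤ 1 := by
    rw [← h2, ← h1]
    exact prob_le_one
  have h4 : (((p : ℝ) ^ (-(k : ℤ))) ^ Fintype.card ι) =
      ((((p ^ k) ^ Fintype.card ι : ℕ) : ℝ))⁻¹ := by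
    rw [zpow_neg, zpow_natCast, inv_pow]
    push_cast
    rfl
  have h5 : (0 : ℝ) < (((p ^ k) ^ Fintype.card ι : ℕ) : ℝ) := by
    have : 0 < (p ^ k) ^ Fintype.card ι := by positivity
    exact_mod_cast this
  rw [h4, ENNReal.ofReal_inv_of_pos h5, ENNReal.ofReal_natCast, ENNReal.le_inv_iff_mul_le, mul_comm]
  exact h3

theorem ball_le {r : ℝ} (hr : 0 < r) (a : ι → ℤ_[p]) :
    μ {η | ∀ j, ‖η j - a j‖ ≤ r} ≤ ENNReal.ofReal (r ^ Fintype.card ι) := by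
  have hp : 1 < p := (Fact.out : p.Prime).one_lt
  have hp' : (1 : ℝ) < p := by exact_mod_cast hp
  rcases le_or_gt 1 r with h1 | h1
  · refine prob_le_one.trans ?_
    rw [← ENNReal.ofReal_one]
    exact ENNReal.ofReal_le_ofReal (one_le_pow₀ h1)
  · have hex : ∃ k : ℕ, (p : ℝ) ^ (-(k : ℤ)) ≤ r := by
      obtain ⟨k, hk⟩ := exists_pow_lt_of_lt_one hr (inv_lt_one_of_one_lt₀ hp')
      refine ⟨k, ?_⟩
      rw [zpow_neg, zpow_natCast, ← inv_pow]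
      exact hk.le
    classical
    set k := Nat.find hex with hk
    have hk1 : (p : ℝ) ^ (-(k : ℤ)) ≤ r := Nat.find_spec hex
    have hk0 : k ≠ 0 := by
      intro h0
      rw [h0] at hk1
      simp only [Nat.cast_zero, neg_zero, zpow_zero] at hk1
      linarith
    have hk2 : r < (p : ℝ) ^ (-(k : ℤ) + 1) := by
      have h2 := Nat.find_min hex (m := k - 1) (by omega)
      rw [not_le, Nat.cast_sub (by omega : 1 ≤ k)] at h2
      have e : -(((k : ℤ)) - ((1 : ℕ) : ℤ)) = -(k : ℤ) + 1 := by push_cast; ring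
      rwa [e] at h2
    have hsub : {η : ι → ℤ_[p] | ∀ j, ‖η j - a j‖ ≤ r} ⊆
        {η | ∀ j, ‖η j - a j‖ ≤ (p : ℝ) ^ (-(k : ℤ))} := by
      intro η h j
      rw [PadicInt.norm_le_pow_iff_norm_lt_pow_add_one]
      exact lt_of_le_of_lt (h j) hk2
    refine (measure_mono hsub).trans ((ball_pow p μ k a).trans ?_)
    refine ENNReal.ofReal_le_ofReal (pow_le_pow_left₀ ?_ hk1 _)
    exact zpow_nonneg (by linarith) _

/-- **an explicit Borel-Cantelli bound** -/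
theorem bc {T : Type} (S : Set T) (h : T → ℕ) (y : T → ι → ℤ) (K s : ℕ)
    (hS : ∀ H : ℕ, {x | x ∈ S ∧ h x ≤ H}.Finite ∧ {x | x ∈ S ∧ h x ≤ H}.ncard ≤ K * (2 * H + 1) ^ s)
    {τ : ℝ} (hτ : 0 ≤ τ) (hs : (s : ℝ) < Fintype.card ι * τ) (H₀ : ℕ) (hH : 1 ≤ H₀) :
    μ {η | ∃ x ∈ S, H₀ ≤ h x ∧ ∀ j, ‖η j - (y x j : ℤ_[p])‖ ≤ (h x : ℝ) ^ (-τ)} ≤
      ENNReal.ofReal (K * 5 ^ s * (H₀ : ℝ) ^ (-(Fintype.card ι * τ - s)) /
        (1 - 2 ^ (-(Fintype.card ι * τ - s)))) := by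
  set κ : ℝ := Fintype.card ι * τ - s with hκ
  have hκ0 : 0 < κ := by linarith
  have hH' : (1 : ℝ) ≤ H₀ := by exact_mod_cast hH
  let A : ℕ → Set T := fun i => {x | x ∈ S ∧ h x ≤ 2 ^ (i + 1) * H₀}
  have hA : ∀ i, (A i).Finite := fun i => (hS _).1
  let B : ℕ → T → Set (ι → ℤ_[p]) := fun i x =>
    {η | ∀ j, ‖η j - (y x j : ℤ_[p])‖ ≤ (2 ^ i * (H₀ : ℝ)) ^ (-τ)}
  have hsub : {η : ι → ℤ_[p] | ∃ x ∈ S, H₀ ≤ h x ∧
      ∀ j, ‖η j - (y x j : ℤ_[p])‖ ≤ (h x : ℝ) ^ (-τ)} ⊆ ⋃ i : ℕ, ⋃ x ∈ (hA i).toFinset, B i x := by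
    rintro η ⟨x, hx, h1, h2⟩
    have hex : ∃ i : ℕ, h x ≤ 2 ^ (i + 1) * H₀ := by
      refine ⟨h x, ?_⟩
      have h3 : h x < 2 ^ h x := Nat.lt_two_pow_self
      calc h x ≤ 2 ^ h x := h3.le
        _ ≤ 2 ^ (h x + 1) := Nat.pow_le_pow_right (by norm_num) (by omega)
        _ ≤ 2 ^ (h x + 1) * H₀ := Nat.le_mul_of_pos_right _ hH
    classical
    set i := Nat.find hex with hi
    have hi1 : h x ≤ 2 ^ (i + 1) * H₀ := Nat.find_spec hex
    have hi2 : 2 ^ i * H₀ ≤ h x := by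
      rcases Nat.eq_zero_or_pos i with h0 | h0
      · rw [h0, pow_zero, one_mul]
        exact h1
      · have h3 := Nat.find_min hex (m := i - 1) (by omega)
        have e : i - 1 + 1 = i := by omega
        rw [e] at h3
        omega
    rw [Set.mem_iUnion]
    refine ⟨i, ?_⟩
    rw [Set.mem_iUnion₂]
    refine ⟨x, (hA i).mem_toFinset.2 ⟨hx, hi1⟩, fun j => (h2 j).trans ?_⟩
    have hi2' : 2 ^ i * (H₀ : ℝ) ≤ h x := by exact_mod_cast hi2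
    exact Real.rpow_le_rpow_of_nonpos (by positivity) hi2' (by linarith)
  have hr0 : (2 : ℝ) ^ (-κ) < 1 := Real.rpow_lt_one_of_one_lt_of_neg (by norm_num) (by linarith)
  have hr1 : (0 : ℝ) ≤ (2 : ℝ) ^ (-κ) := (Real.rpow_pos_of_pos (by norm_num) _).le
  have hH0κ : (0 : ℝ) ≤ (H₀ : ℝ) ^ (-κ) := Real.rpow_nonneg (by linarith) _
  have hterm : ∀ i : ℕ, μ (⋃ x ∈ (hA i).toFinset, B i x) ≤
      ENNReal.ofReal (K * 5 ^ s * (H₀ : ℝ) ^ (-κ) * ((2 : ℝ) ^ (-κ)) ^ i) := by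
    intro i
    have hpos : (0 : ℝ) < 2 ^ i * H₀ := by positivity
    refine (measure_biUnion_finset_le _ _).trans ?_
    have h1 : ∀ x ∈ (hA i).toFinset, μ (B i x) ≤
        ENNReal.ofReal (((2 ^ i * (H₀ : ℝ)) ^ (-τ)) ^ Fintype.card ι) := fun x _ =>
      ball_le p μ (Real.rpow_pos_of_pos hpos _) _
    refine (Finset.sum_le_sum h1).trans ?_
    rw [Finset.sum_const, nsmul_eq_mul, ← ENNReal.ofReal_natCast,
      ← ENNReal.ofReal_mul (Nat.cast_nonneg _)]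
    apply ENNReal.ofReal_le_ofReal
    have h2 : (((hA i).toFinset.card : ℕ) : ℝ) ≤ K * (5 * (2 ^ i * (H₀ : ℝ))) ^ s := by
      have h3 := (hS (2 ^ (i + 1) * H₀)).2
      rw [Set.ncard_eq_toFinset_card _ (hA i)] at h3
      have h4 : (((hA i).toFinset.card : ℕ) : ℝ) ≤
          K * (2 * (2 ^ (i + 1) * (H₀ : ℝ)) + 1) ^ s := by exact_mod_cast h3
      refine h4.trans (mul_le_mul_of_nonneg_left (pow_le_pow_left₀ (by positivity) ?_ _)
        (Nat.cast_nonneg _))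
      have h5 : (1 : ℝ) ≤ 2 ^ i * H₀ := one_le_mul_of_one_le_of_one_le (one_le_pow₀ (by norm_num)) hH'
      rw [pow_succ]
      linarith
    have h3 : ((2 ^ i * (H₀ : ℝ)) ^ (-τ)) ^ Fintype.card ι =
        (2 ^ i * (H₀ : ℝ)) ^ (-τ * Fintype.card ι) := by
      rw [← Real.rpow_natCast, ← Real.rpow_mul hpos.le]
    rw [h3]
    have h4 : (2 ^ i * (H₀ : ℝ)) ^ s * (2 ^ i * (H₀ : ℝ)) ^ (-τ * Fintype.card ι) =
        (H₀ : ℝ) ^ (-κ) * ((2 : ℝ) ^ (-κ)) ^ i := by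
      rw [← Real.rpow_natCast (2 ^ i * (H₀ : ℝ)) s, ← Real.rpow_add hpos]
      have e : (s : ℝ) + -τ * Fintype.card ι = -κ := by rw [hκ]; ring
      rw [e, Real.mul_rpow (by positivity) (by positivity), mul_comm]
      congr 1
      rw [← Real.rpow_natCast 2 i, ← Real.rpow_mul (by norm_num), ← Real.rpow_natCast,
        ← Real.rpow_mul (by norm_num)]
      congr 1
      ring
    calc (((hA i).toFinset.card : ℕ) : ℝ) * (2 ^ i * (H₀ : ℝ)) ^ (-τ * Fintype.card ι)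
        ≤ K * (5 * (2 ^ i * (H₀ : ℝ))) ^ s * (2 ^ i * (H₀ : ℝ)) ^ (-τ * Fintype.card ι) :=
          mul_le_mul_of_nonneg_right h2 (Real.rpow_nonneg hpos.le _)
      _ = K * 5 ^ s * ((2 ^ i * (H₀ : ℝ)) ^ s * (2 ^ i * (H₀ : ℝ)) ^ (-τ * Fintype.card ι)) := by
          rw [mul_pow]; ring
      _ = _ := by rw [h4]; ring
  refine (measure_mono hsub).trans ((measure_iUnion_le _).trans ((ENNReal.tsum_le_tsum hterm).trans ?_))
  have hsum : Summable fun i : ℕ => K * 5 ^ s * (H₀ : ℝ) ^ (-κ) * ((2 : ℝ) ^ (-κ)) ^ i :=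
    (summable_geometric_of_lt_one hr1 hr0).mul_left _
  rw [← ENNReal.ofReal_tsum_of_nonneg (fun i => by positivity) hsum, tsum_mul_left,
    tsum_geometric_of_lt_one hr1 hr0, div_eq_mul_inv]

end ball

end Q273.SG
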